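import Pool.Agent.TH450.FI.B

/-!
# Preperiodic points over function fields when one place carries a fixed share of the size

For every `d ≥ 2` there is a constant `C`, depending on nothing but `d`, such that a map `f` of
degree `d` of the projective line over a field `K` with a product formula (over a field `k` of
constants, of any characteristic), which is not isotrivial, has at most `C R log (1 + R)`
preperiodic points in the projective line over `K` if the sum of the weighted sizes of `f` at all
places is at most `R` times the weighted size at one place.  There is no dependence on `K`: neither
on the genus or the gonality, nor on the number of places of bad reduction of `f`.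

The local estimates (gain by pigeonhole in finitely many cells at the place of large size, loss of
a determinant at the other places, proportional to the size) hold for all nonarchimedean absolute
values without additive constants, so that the product formula compares the loss of all places with
the gain at one place.
-/

set_option autoImplicit false

namespace Pool.Agent.Results.MP_62a0c3_nt.DominantPlace

open Real Pool.Agent.H951R3.PB Pool.Agent.TH450.FG

universe u v w

/-- For every `d ≥ 2` there is `C` such that for every field `K` with a product formula over `k`
(`Q : PF k K`), every map `f` of degree `d` of the projective line over `K` which is not isotrivial,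
every choice `w` of extensions of the places to the algebraic closure, every place `v₀` and every
`R ≥ 1`: if the weighted sum of the positive parts of the sizes of `f` at any finitely many places
is at most `R` times the weighted positive part of the size at `v₀`, then `f` has at most
`C * R * log (1 + R)` preperiodic points in the projective line over `K`. -/
theorem result (d : ℕ) (hd : 2 ≤ d) : ∃ C : ℝ, 0 < C ∧
    ∀ (k : Type v) (K : Type u) [Field k] [Field K] [Algebra k K] (Q : PF.{u, v, w} k K),
    ∀ f : Fin 2 → MvPolynomial (Fin 2) K, (∀ i, (f i).IsHomogeneous d) →
      (∀ x : Fin 2 → AlgebraicClosure K, (∀ i, MvPolynomial.aeval x (f i) = 0) → x = 0) →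
      ¬ Isotrivial k d f →
    ∀ (w : Q.Pl → AbsoluteValue (AlgebraicClosure K) ℝ), (∀ v, Ext (Q.V v) (w v)) →
    ∀ (v₀ : Q.Pl) (R : ℝ), 1 ≤ R →
      (∀ T : Finset Q.Pl, ∑ v ∈ T, Q.wt v * max 0 (msz d f (w v)) ≤
        R * (Q.wt v₀ * max 0 (msz d f (w v₀)))) →
    ∀ X : Finset (Fin 2 → K), (∀ x ∈ X, x ≠ 0) →
      (∀ x ∈ X, ∀ y ∈ X, ∀ c : K, x = c • y → x = y) →
      (∀ x ∈ X, ∃ m n : ℕ, m < n ∧ ∃ c : K, c ≠ 0 ∧
        (fun v : Fin 2 → K => fun i => MvPolynomial.eval v (f i))^[n] x =
          c • (fun v : Fin 2 → K => fun i => MvPolynomial.eval v (f i))^[m] x) →
      (X.card : ℝ) ≤ C * R * log (1 + R) :=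
  Pool.Agent.TH450.FI.main_conc d hd

end Pool.Agent.Results.MP_62a0c3_nt.DominantPlace
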