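import Pool.Agent.TH737.FE.Asm
import Pool.Agent.TH737.FE.Ex2

/-!
# Preperiodic points of polynomials over function fields and the number of bad places

Let `K` be a function field of one variable over any field `k`, of any characteristic, and let
`f` be a polynomial of degree `d` over `K` which is not isotrivial and has potentially good
reduction outside `s` places. The number of preperiodic points of `f` in `K` is bounded by explicit
functions of `d` and `s` which are linear in `d` as soon as `d` is not small in terms of `s`. For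
one place the bound is `2 d - 1`, and this is attained for every `d ≥ 3`.

Proof. Let `S` be a finite forward invariant set, in a coordinate in which `f` is monic, and let
`w` be an absolute value for which `S` has diameter `D > 1`. The `D`-level set
`{x : |f x - f p| ≤ D}` is a union of at most `d` discs whose radii `r ≤ 1` are determined by the
roots of `f - f p`. The kernel `log max(|x-y|, r x, r y)` is conditionally negative definite, and its
sum over the roots is constant; comparing a measure on `S` with the measure on the roots bounds the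
weighted product of the differences of the points of `S` in terms of their radii only. The product
formula compares these at the bad places; the weights are the inverses of the total sizes
`Σ log (1 / r x)`, and the resulting inequality is summed over all discs at all bad places. The
points with all radii equal to `1` lie at mutual distance `1` at some bad place and there are at
most `2 (d - 1)` of them.
-/

set_option autoImplicit false

open Finset Polynomial Pool.Agent.TH737.FE

namespace Pool.Agent.Results.MP_62a0c3_nt.PolynomialsLinear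

universe u v

/-- The elements of `K` with a finite forward orbit under `f`. -/
def prePoints {K : Type u} [Field K] (f : K[X]) : Set K :=
  {x | (Set.range fun n : ℕ => (fun y : K => f.eval y)^[n] x).Finite}

/-- `f` is isotrivial: for some `a ≠ 0` and `b` in the algebraic closure of `K` the polynomial
`(f (a x + b) - b) / a` has coefficients algebraic over `k`. -/
def Isotrivial (k : Type v) {K : Type u} [Field k] [Field K] [Algebra k K] (f : K[X]) : Prop :=
  ∃ a b : AlgebraicClosure K, a ≠ 0 ∧ ∀ m, IsAlgebraic k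
    ((C a⁻¹ * ((f.map (algebraMap K (AlgebraicClosure K))).comp (C a * X + C b) - C b)).coeff m)

/-- `f` has potentially good reduction at `v`: for an absolute value `w` on the algebraic closure
extending `v` and an affine coordinate `x = l x' + b` over the algebraic closure, `f` becomes a
polynomial `g` with `w`-integral coefficients whose leading coefficient is a `w`-adic unit. -/
def PotGoodAt {K : Type u} [Field K] (v : AbsoluteValue K ℝ) (f : K[X]) : Prop :=
  ∃ w : AbsoluteValue (AlgebraicClosure K) ℝ,
    (∀ x : K, w (algebraMap K (AlgebraicClosure K) x) = v x) ∧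
    ∃ (g : (AlgebraicClosure K)[X]) (l b : AlgebraicClosure K), l ≠ 0 ∧
      (∀ j, w (g.coeff j) ≤ 1) ∧ w g.leadingCoeff = 1 ∧
      C l * g = (f.map (algebraMap K (AlgebraicClosure K))).comp (C l * X + C b) - C b

/-- Every nontrivial absolute value of `K`, trivial on `k`, at which `f` does not have potentially
good reduction is equivalent to a member of `T`. -/
def GoodOutside (k : Type v) {K : Type u} [Field k] [Field K] [Algebra k K] (f : K[X])
    (T : Finset (AbsoluteValue K ℝ)) : Prop :=
  ∀ v : AbsoluteValue K ℝ, v.IsNontrivial → (∀ c : k, c ≠ 0 → v (algebraMap k K c) = 1) →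
    ¬ PotGoodAt v f → ∃ t ∈ T, v.IsEquiv t

/-- `K` is a function field of one variable over `k`. -/
def FunctionField1 (k : Type v) (K : Type u) [Field k] [Field K] [Algebra k K] : Prop :=
  (⊤ : IntermediateField k K).FG ∧
    ∃ x : K, Transcendental k x ∧ Algebra.IsAlgebraic (IntermediateField.adjoin k {x}) K

lemma encard_le_of_finset {α : Type*} (s : Set α) (n : ℕ)
    (h : ∀ Y : Finset α, (∀ P ∈ Y, P ∈ s) → Y.card ≤ n) : s.encard ≤ n := by
  classical
  by_contra hcon
  push Not at hcon
  have h1 : ((n + 1 : ℕ) : ℕ∞) ≤ s.encard := by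
    push_cast
    exact Order.add_one_le_of_lt hcon
  obtain ⟨t, hts, ht⟩ := Set.exists_subset_encard_eq h1
  have hfin : t.Finite := Set.finite_of_encard_eq_coe ht
  have h2 := h hfin.toFinset (fun P hP => hts (by simpa using hP))
  have h3 : t.encard = (hfin.toFinset.card : ℕ∞) := hfin.encard_eq_coe_toFinset_card
  rw [h3] at ht
  have h4 : hfin.toFinset.card = n + 1 := by exact_mod_cast ht
  omega

/-- A finite set of preperiodic points lies in a finite forward invariant set. -/
lemma exists_inv {K : Type u} [Field K] (f : K[X]) (Y : Finset K)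
    (hY : ∀ x ∈ Y, x ∈ prePoints f) : ∃ S : Finset K, (∀ s ∈ S, f.eval s ∈ S) ∧ Y ⊆ S := by
  classical
  set O : K → Set K := fun x => Set.range fun n : ℕ => (fun y : K => f.eval y)^[n] x with hO
  have hfin : (⋃ x ∈ Y, O x).Finite := by
    refine Set.Finite.biUnion Y.finite_toSet fun x hx => ?_
    exact hY x hx
  refine ⟨hfin.toFinset, ?_, ?_⟩
  · intro s hs
    rw [Set.Finite.mem_toFinset] at hs ⊢
    simp only [Set.mem_iUnion] at hs ⊢
    obtain ⟨x, hx, n, hn⟩ := hs
    refine ⟨x, hx, n + 1, ?_⟩
    rw [← hn]
    simp only [Function.iterate_succ_apply']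
  · intro x hx
    rw [Set.Finite.mem_toFinset]
    simp only [Set.mem_iUnion]
    exact ⟨x, hx, 0, rfl⟩

/-- An invariant finite set consists of preperiodic points. -/
lemma le_encard {K : Type u} [Field K] (f : K[X]) (A : Finset K)
    (h : ∀ a ∈ A, f.eval a ∈ A) : (A.card : ℕ∞) ≤ (prePoints f).encard := by
  classical
  rw [← Set.encard_coe_eq_coe_finsetCard]
  refine Set.encard_le_encard ?_
  intro x hx
  refine Set.Finite.subset (Finset.finite_toSet A) ?_
  rintro _ ⟨n, rfl⟩
  rw [mem_coe]
  induction n with
  | zero => exact hx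
  | succ n ih =>
    simp only [Function.iterate_succ_apply']
    exact h _ ih

lemma part1 (k : Type v) (K : Type u) [Field k] [Field K] [Algebra k K]
    (hK : FunctionField1 k K) (d : ℕ) (hd : 2 ≤ d) (f : K[X]) (hf : f.natDegree = d)
    (hiso : ¬ Isotrivial k f) (T : Finset (AbsoluteValue K ℝ)) (hT : GoodOutside k f T) :
    (∀ m : ℕ, 3 ≤ d ^ m → 28 * T.card ≤ d ^ m →
      (prePoints f).encard ≤ ((2 * (T.card + 1) * d ^ m : ℕ) : ℕ∞)) ∧
    (∀ m : ℕ, 3 ≤ d ^ m → 2 * T.card ≤ d ^ m →
      (prePoints f).encard ≤ ((2 * (T.card ^ 2 + 1) * d ^ m : ℕ) : ℕ∞)) ∧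
    (3 ≤ d → T.card = 1 → (prePoints f).encard ≤ ((2 * d - 1 : ℕ) : ℕ∞)) := by
  obtain ⟨Q⟩ := Pool.Agent.TH450.FG.exists_PF k K hK.1 hK.2
  have key := core_poly Q f d hd hf hiso T (fun v hv hb => hT _ hv (Q.triv v) hb)
  refine ⟨?_, ?_, ?_⟩
  · intro m h3 h2
    refine encard_le_of_finset _ _ fun Y hY => ?_
    obtain ⟨S, hS, hYS⟩ := exists_inv f Y hY
    exact (card_le_card hYS).trans ((key S hS).2.2 m h3 h2)
  · intro m h3 h2
    refine encard_le_of_finset _ _ fun Y hY => ?_
    obtain ⟨S, hS, hYS⟩ := exists_inv f Y hY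
    exact (card_le_card hYS).trans ((key S hS).1 m h3 h2)
  · intro h3 h1
    refine encard_le_of_finset _ _ fun Y hY => ?_
    obtain ⟨S, hS, hYS⟩ := exists_inv f Y hY
    exact (card_le_card hYS).trans ((key S hS).2.1 h3 h1)

/-- the bound for all degrees -/
lemma part1' (k : Type v) (K : Type u) [Field k] [Field K] [Algebra k K]
    (hK : FunctionField1 k K) (d : ℕ) (hd : 2 ≤ d) (f : K[X]) (hf : f.natDegree = d)
    (hiso : ¬ Isotrivial k f) (T : Finset (AbsoluteValue K ℝ)) (hT : GoodOutside k f T)
    (h1 : 1 ≤ T.card) :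
    (prePoints f).encard ≤ ((56 * T.card * (T.card + 1) * d : ℕ) : ℕ∞) := by
  have h2 : 1 < d := hd
  have h3 : 1 < 28 * T.card := by omega
  have h4 : 28 * T.card ≤ d ^ Nat.clog d (28 * T.card) := Nat.le_pow_clog h2 _
  have h5 := Nat.pow_pred_clog_lt_self h2 h3
  have h6 : d ^ Nat.clog d (28 * T.card) = d ^ (Nat.clog d (28 * T.card)).pred * d := by
    rw [← pow_succ]
    congr 1
    have := Nat.clog_pos h2 h3
    simp only [Nat.pred_eq_sub_one]
    omega
  refine ((part1 k K hK d hd f hf hiso T hT).1 _ (by omega) h4).trans ?_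
  have h7 : 2 * (T.card + 1) * d ^ Nat.clog d (28 * T.card) ≤
      56 * T.card * (T.card + 1) * d := by
    rw [h6]
    calc 2 * (T.card + 1) * (d ^ (Nat.clog d (28 * T.card)).pred * d)
        ≤ 2 * (T.card + 1) * (28 * T.card * d) := by gcongr
      _ = _ := by ring
  exact_mod_cast h7

lemma functionField1_ratFunc (k : Type v) [Field k] : FunctionField1 k (RatFunc k) := by
  constructor
  · rw [← RatFunc.adjoin_X]
    exact IntermediateField.fg_adjoin_of_finite (Set.finite_singleton _)
  · refine ⟨RatFunc.X, RatFunc.transcendental_X, ?_⟩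
    rw [RatFunc.adjoin_X]
    refine ⟨fun x => ?_⟩
    exact isAlgebraic_algebraMap (⟨x, IntermediateField.mem_top⟩ : (⊤ : IntermediateField k (RatFunc k)))

lemma part2 (k : Type v) [Field k] [IsAlgClosed k] [CharZero k] (d : ℕ) (hd : 3 ≤ d) :
    ∃ T : Finset (AbsoluteValue (RatFunc k) ℝ), T.card = 1 ∧ GoodOutside k (exF k d) T ∧
      (prePoints (exF k d)).encard = ((2 * d - 1 : ℕ) : ℕ∞) := by
  classical
  obtain ⟨T, hT1, hT⟩ : ∃ T : Finset (AbsoluteValue (RatFunc k) ℝ), T.card = 1 ∧
      GoodOutside k (exF k d) T := by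
    by_cases h : ∃ V : AbsoluteValue (RatFunc k) ℝ,
        (∀ c : k, c ≠ 0 → V (algebraMap k (RatFunc k) c) = 1) ∧ 1 < V RatFunc.X
    · obtain ⟨V, hV, hV1⟩ := h
      refine ⟨{V}, card_singleton _, fun v _ htriv hbad => ⟨V, mem_singleton_self _, ?_⟩⟩
      refine equiv_of_pole v V htriv hV ?_ hV1
      by_contra hcon
      exact hbad (exF_good k d hd v htriv (not_lt.1 hcon))
    · refine ⟨{AbsoluteValue.trivial}, card_singleton _, fun v _ htriv hbad => ?_⟩
      exfalso
      refine h ⟨v, htriv, ?_⟩
      by_contra hcon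
      exact hbad (exF_good k d hd v htriv (not_lt.1 hcon))
  refine ⟨T, hT1, hT, le_antisymm ?_ ?_⟩
  · exact (part1 k (RatFunc k) (functionField1_ratFunc k) d (by omega) (exF k d)
      (exF_monic k d hd).2 (exF_not_isotrivial k d hd) T hT).2.2 hd hT1
  · obtain ⟨A, hA, hA'⟩ := exF_points k d hd
    rw [← hA]
    exact le_encard _ A hA'

/-- Bounds, explicit in the degree and the number of places of bad reduction, for the number of
preperiodic points of non-isotrivial polynomials over a function field of one variable; in the case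
of one bad place the bound `2 d - 1` is attained for every `d ≥ 3`, over `K = k(t)`. -/
theorem result :
    (∀ (k : Type v) (K : Type u) [Field k] [Field K] [Algebra k K], FunctionField1 k K →
      ∀ d : ℕ, 2 ≤ d → ∀ f : K[X], f.natDegree = d → ¬ Isotrivial k f →
      ∀ T : Finset (AbsoluteValue K ℝ), GoodOutside k f T →
        (∀ m : ℕ, 3 ≤ d ^ m → 28 * T.card ≤ d ^ m →
          (prePoints f).encard ≤ ((2 * (T.card + 1) * d ^ m : ℕ) : ℕ∞)) ∧
        (1 ≤ T.card →
          (prePoints f).encard ≤ ((56 * T.card * (T.card + 1) * d : ℕ) : ℕ∞)) ∧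
        (∀ m : ℕ, 3 ≤ d ^ m → 2 * T.card ≤ d ^ m →
          (prePoints f).encard ≤ ((2 * (T.card ^ 2 + 1) * d ^ m : ℕ) : ℕ∞)) ∧
        (3 ≤ d → T.card = 1 → (prePoints f).encard ≤ ((2 * d - 1 : ℕ) : ℕ∞))) ∧
    (∀ (k : Type v) [Field k] [IsAlgClosed k] [CharZero k],
      ∃ (K : Type v) (_ : Field K) (_ : Algebra k K) (t : K), Transcendental k t ∧
        IntermediateField.adjoin k {t} = ⊤ ∧ ∀ d : ℕ, 3 ≤ d →
          ∃ (f : K[X]) (T : Finset (AbsoluteValue K ℝ)), f.natDegree = d ∧
            f = (X - C t) * (X ^ (d - 1) - C 2) + X ∧ ¬ Isotrivial k f ∧ T.card = 1 ∧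
            GoodOutside k f T ∧ (prePoints f).encard = ((2 * d - 1 : ℕ) : ℕ∞)) := by
  refine ⟨fun k K _ _ _ hK d hd f hf hiso T hT => ?_, fun k _ _ _ => ?_⟩
  · have key := part1 k K hK d hd f hf hiso T hT
    exact ⟨key.1, part1' k K hK d hd f hf hiso T hT, key.2.1, key.2.2⟩
  refine ⟨RatFunc k, inferInstance, inferInstance, RatFunc.X, RatFunc.transcendental_X,
    RatFunc.adjoin_X, fun d hd => ?_⟩
  obtain ⟨T, h1, h2, h3⟩ := part2 k d hd
  exact ⟨exF k d, T, (exF_monic k d hd).2, rfl, exF_not_isotrivial k d hd, h1, h2, h3⟩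

end Pool.Agent.Results.MP_62a0c3_nt.PolynomialsLinear
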